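import Pool.Agent.CircWL.Cor

/-!
# The Weisfeiler-Leman dimension of circulant graphs is unbounded

If `n` has at least `4001 * k` different prime factors, there are two non-isomorphic circulant graphs
(Cayley graphs of the cyclic group `ZMod n`) with `n` vertices that are not distinguished by the
`k`-dimensional Weisfeiler-Leman algorithm. For every `k ≥ 1` some `n ≤ (k + 1) ^ (200000 k)` has
this property.
-/

namespace Pool.Agent.Results.MP_128e7d_lc.CirculantGraphs

open Pool.Agent.SRGWL SimpleGraph

theorem result :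
    (∀ (k n : ℕ) (_ : NeZero n), 1 ≤ k → 4001 * k ≤ n.primeFactors.card →
      ∃ S T : Set (ZMod n), IsEmpty (circulantGraph S ≃g circulantGraph T) ∧
        WLEquiv k (circulantGraph S) (circulantGraph T)) ∧
    (∀ k : ℕ, 1 ≤ k → ∃ (n : ℕ) (_ : NeZero n), n ≤ (k + 1) ^ (200000 * k) ∧
      ∃ S T : Set (ZMod n), IsEmpty (circulantGraph S ≃g circulantGraph T) ∧
        WLEquiv k (circulantGraph S) (circulantGraph T)) := by
  refine ⟨fun k n _ hk hn => Pool.Agent.CircWL.main hk hn, fun k hk => ?_⟩
  obtain ⟨n, hn0, hn, hc⟩ := Pool.Agent.CircWL.exists_number hk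
  have : NeZero n := ⟨hn0⟩
  exact ⟨n, this, hn, Pool.Agent.CircWL.main hk hc⟩

end Pool.Agent.Results.MP_128e7d_lc.CirculantGraphs
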